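import Mathlib

set_option autoImplicit false

namespace Pool.Agent.Results.MP_5a34df_al.Counterexample

abbrev P := Fin 12 × Fin 12

def L : List (P × P) :=
  [((9, 10), (0, 1)), ((6, 7), (1, 2)), ((3, 4), (0, 2)), ((7, 8), (4, 5)), ((10, 11), (6, 8))]

def r (p : P) : P := ((L.lookup p).getD p)

theorem rr : ∀ p : P, r (r p) = r p := by decide +kernel

theorem r_cases : ∀ p q : P, r p = r q → p = q ∨ (p, q) ∈ L ∨ (q, p) ∈ L := by decide +kernel

theorem r_row : ∀ j k k' : Fin 12, r (j, k) = r (j, k') → k = k' := by decide +kernel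

theorem r_L : ∀ x ∈ L, ∀ k k' : Fin 12, r (x.1.2, k) ≠ r (x.2.2, k') := by
  intro x hx
  simp only [L, List.mem_cons, List.not_mem_nil, or_false] at hx
  rcases hx with rfl | rfl | rfl | rfl | rfl <;> decide +kernel

theorem key {i j k i' j' k' : Fin 12} (h1 : r (i, j) = r (i', j')) (h2 : r (j, k) = r (j', k')) :
    r (i, k) = r (i', k') := by
  rcases r_cases _ _ h1 with h | h | h
  · obtain ⟨rfl, rfl⟩ := Prod.ext_iff.1 h
    rw [r_row _ _ _ h2]
  · exact absurd h2 (r_L _ h _ _)
  · exact absurd h2.symm (r_L _ h _ _)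

abbrev Γ := {p : P // r p = p}

def c (i j : Fin 12) : Γ := ⟨r (i, j), rr _⟩

open Classical in
noncomputable def op (g h : Γ) : Γ :=
  if H : ∃ x : Fin 12 × Fin 12 × Fin 12, c x.1 x.2.1 = g ∧ c x.2.1 x.2.2 = h then
    c H.choose.1 H.choose.2.2 else g

theorem op_c (i j k : Fin 12) : op (c i j) (c j k) = c i k := by
  have H : ∃ x : Fin 12 × Fin 12 × Fin 12, c x.1 x.2.1 = c i j ∧ c x.2.1 x.2.2 = c j k :=
    ⟨(i, j, k), rfl, rfl⟩
  rw [op, dif_pos H]
  exact Subtype.ext (key (Subtype.ext_iff.1 H.choose_spec.1) (Subtype.ext_iff.1 H.choose_spec.2))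

def A (K : Type*) [Field K] (g : Γ) : Submodule K (Matrix (Fin 12) (Fin 12) K) where
  carrier := {M | ∀ i j, c i j ≠ g → M i j = 0}
  add_mem' := fun ha hb i j h => by simp [ha i j h, hb i j h]
  zero_mem' := fun _ _ _ => rfl
  smul_mem' := fun a M hM i j h => by simp [hM i j h]

theorem single_mem (K : Type*) [Field K] (i j : Fin 12) (a : K) :
    Matrix.single i j a ∈ A K (c i j) := by
  intro i' j' h
  rw [Matrix.single_apply, if_neg]
  rintro ⟨rfl, rfl⟩
  exact h rfl

theorem mul_ne (K : Type*) [Field K] (i j k : Fin 12) : A K (c i j) * A K (c j k) ≠ ⊥ := by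
  intro h
  have := Submodule.mul_mem_mul (single_mem K i j 1) (single_mem K j k 1)
  rw [h, Submodule.mem_bot, Matrix.single_mul_single_same] at this
  have := congrFun (congrFun this i) k
  simp at this

universe u v

theorem result (K : Type u) [Field K] : ∃ (n : ℕ) (Γ : Type)
    (A : Γ → Submodule K (Matrix (Fin n) (Fin n) K)) (op : Γ → Γ → Γ),
    1 ≤ n ∧ iSupIndep A ∧ ⨆ g, A g = ⊤ ∧ (∀ g, A g ≠ ⊥) ∧
    (∀ g h, A g * A h ≠ ⊥ → A g * A h ≤ A (op g h)) ∧
    ¬ ∃ (G : Type v) (_ : Semigroup G) (ι : Γ → G), Function.Injective ι ∧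
      ∀ g h, A g * A h ≠ ⊥ → ι (op g h) = ι g * ι h := by
  refine ⟨12, Γ, A K, op, by norm_num, ?_, ?_, ?_, ?_, ?_⟩
  · intro g
    rw [Submodule.disjoint_def]
    intro M hM hM'
    have : ∀ i j, c i j = g → M i j = 0 := by
      intro i j hij
      have hle : (⨆ h, ⨆ (_ : h ≠ g), A K h) ≤
          LinearMap.ker (Matrix.entryLinearMap K K i j) := by
        refine iSup₂_le fun h hh N hN => ?_
        exact hN i j (by rw [hij]; exact fun e => hh e.symm)
      exact hle hM'
    ext i j
    by_cases h : c i j = g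
    · exact this i j h
    · exact hM i j h
  · rw [eq_top_iff]
    intro M _
    rw [Matrix.matrix_eq_sum_single M]
    exact Submodule.sum_mem _ fun i _ => Submodule.sum_mem _ fun j _ =>
      Submodule.mem_iSup_of_mem (c i j) (single_mem K i j _)
  · rintro ⟨⟨i, j⟩, hg⟩ h
    have := single_mem K i j 1
    rw [show c i j = ⟨(i, j), hg⟩ from Subtype.ext hg, h, Submodule.mem_bot] at this
    have := congrFun (congrFun this i) j
    simp at this
  · intro g h _
    rw [Submodule.mul_le]
    intro M hM N hN i k hik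
    rw [Matrix.mul_apply]
    refine Finset.sum_eq_zero fun j _ => ?_
    by_cases h1 : c i j = g
    · by_cases h2 : c j k = h
      · subst h1 h2
        exact absurd (op_c i j k).symm hik
      · rw [hN j k h2, mul_zero]
    · rw [hM i j h1, zero_mul]
  · rintro ⟨G, _, ι, hι, h⟩
    have e : ∀ i j k, ι (c i k) = ι (c i j) * ι (c j k) := fun i j k => by
      rw [← h _ _ (mul_ne K i j k), op_c]
    have e1 : c 9 10 = c 0 1 := by decide
    have e2 : c 6 7 = c 1 2 := by decide
    have e3 : c 3 4 = c 0 2 := by decide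
    have e4 : c 7 8 = c 4 5 := by decide
    have e5 : c 10 11 = c 6 8 := by decide
    have : ι (c 3 5) = ι (c 9 11) := by
      rw [e 3 4 5, e 9 10 11, e3, e5, e 0 1 2, e 6 7 8, e1, e2, e4, mul_assoc]
    exact absurd (hι this) (by decide)

end Pool.Agent.Results.MP_5a34df_al.Counterexample
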